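import Pool.Agent.H32.SAB.TargetsT

/-!
# Separable discriminant and smoothness
-/

set_option autoImplicit false

open Polynomial Matrix Pool.Agent.H32.SAB

namespace Pool.Agent.H32.SABP

section

variable {F : Type} [Field F] {n : ℕ}

theorem lead_ne {A B : Matrix (Fin n) (Fin n) F}
    (h0 : (A.map C - (X : F[X]) • B.map C).det ≠ 0)
    (hn : (A.map C - (X : F[X]) • B.map C).det.natDegree = n) : B.det ≠ 0 := by
  intro h2
  have h1 : A.map C - (X : F[X]) • B.map C = (X : F[X]) • (-B).map C + A.map C := by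
    ext i j
    simp
    ring
  have h3 := coeff_det_X_add_C_card (-B) A
  rw [← h1, Matrix.det_neg, h2, mul_zero, Fintype.card_fin] at h3
  apply h0
  rw [← leadingCoeff_eq_zero, leadingCoeff, hn, h3]

theorem entry (A B : Matrix (Fin n) (Fin n) F) (i j : Fin n) :
    (A.map C - (X : F[X]) • B.map C) i j = C (A i j) - X * C (B i j) := by
  simp

theorem row_sum (A B : Matrix (Fin n) (Fin n) F) (x : Fin n → F) (i : Fin n) :
    ∑ j, C (x j) * (A.map C - (X : F[X]) • B.map C) i j =
      C ((A *ᵥ x) i) - X * C ((B *ᵥ x) i) := by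
  simp only [entry]
  unfold mulVec dotProduct
  rw [map_sum, map_sum, Finset.mul_sum, ← Finset.sum_sub_distrib]
  refine Finset.sum_congr rfl fun j _ => ?_
  rw [C_mul, C_mul]
  ring

theorem sq_dvd {A B : Matrix (Fin n) (Fin n) F} (hA : A.IsSymm) (hB : B.IsSymm)
    {x : Fin n → F} (hx : x ≠ 0) (h1 : x ⬝ᵥ A *ᵥ x = 0) (h2 : x ⬝ᵥ B *ᵥ x = 0) (l : F)
    (hl : A *ᵥ x = l • (B *ᵥ x)) :
    (X - C l) * (X - C l) ∣ (A.map C - (X : F[X]) • B.map C).det := by
  classical
  obtain ⟨i0, hi0⟩ : ∃ i, x i ≠ 0 := by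
    by_contra h
    push Not at h
    exact hx (funext h)
  set M := A.map C - (X : F[X]) • B.map C with hM
  set b := B *ᵥ x with hb
  have hrow : ∀ i, ∑ j, C (x j) * M i j = -((X - C l) * C (b i)) := by
    intro i
    rw [hM, row_sum, hl, Pi.smul_apply, smul_eq_mul, C_mul]
    ring
  have hsymm : ∀ i j, M i j = M j i := by
    intro i j
    rw [hM, entry, entry, hA.apply j i, hB.apply j i]
  have hxb : ∑ i, x i * b i = 0 := h2
  set M1 := M.updateCol i0 (fun k => ∑ i, C (x i) • M k i) with hM1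
  have hd1 : M1.det = C (x i0) * M.det := by
    have h := Matrix.det_updateCol_sum M i0 (fun i => C (x i))
    rw [hM1, h, smul_eq_mul]
  set M2 := M1.updateRow i0 (∑ k, C (x k) • M1 k) with hM2
  have hd2 : M2.det = C (x i0) * M1.det := by
    have h := Matrix.det_updateRow_sum M1 i0 (fun i => C (x i))
    rw [hM2, h, smul_eq_mul]
  have hc0 : ∀ k, M1 k i0 = -((X - C l) * C (b k)) := by
    intro k
    rw [hM1, Matrix.updateCol_self]
    simp only [smul_eq_mul]
    exact hrow k
  have hc1 : ∀ k j, j ≠ i0 → M1 k j = M k j := by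
    intro k j hj
    rw [hM1, Matrix.updateCol_ne hj]
  set r : Fin n → F[X] := fun j => if j = i0 then 0 else -C (b j) with hr
  have hM2r : M2 = M1.updateRow i0 ((X - C l) • r) := by
    rw [hM2]
    congr 1
    funext j
    rw [Finset.sum_apply, Pi.smul_apply, hr]
    simp only [Pi.smul_apply, smul_eq_mul]
    by_cases hj : j = i0
    · subst hj
      rw [if_pos rfl, mul_zero]
      simp only [hc0]
      have h3 : ∑ k, C (x k) * -((X - C l) * C (b k)) = -((X - C l) * C (∑ k, x k * b k)) := by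
        rw [map_sum, Finset.mul_sum, ← Finset.sum_neg_distrib]
        refine Finset.sum_congr rfl fun k _ => ?_
        rw [C_mul]
        ring
      rw [h3, hxb]
      simp
    · rw [if_neg hj]
      have h3 : ∑ k, C (x k) * M1 k j = ∑ k, C (x k) * M j k := by
        refine Finset.sum_congr rfl fun k _ => ?_
        rw [hc1 k j hj, hsymm k j]
      rw [h3, hrow j]
      ring
  set M3 := M1.updateRow i0 r with hM3
  have hd3 : M2.det = (X - C l) * M3.det := by
    rw [hM2r, Matrix.det_updateRow_smul]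
  set c : Fin n → F[X] := fun i => if i = i0 then 0 else -C (b i) with hc
  have hM3c : M3 = M3.updateCol i0 ((X - C l) • c) := by
    ext1 i j
    by_cases hj : j = i0
    · subst hj
      rw [Matrix.updateCol_self, Pi.smul_apply, smul_eq_mul, hc]
      by_cases hi : i = j
      · subst hi
        have h7 : r i = 0 := if_pos rfl
        rw [hM3, Matrix.updateRow_self, h7]
        simp
      · rw [hM3, Matrix.updateRow_ne hi, hc0]
        simp only [if_neg hi]
        ring
    · rw [Matrix.updateCol_ne hj]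
  have hd4 : M3.det = (X - C l) * (M3.updateCol i0 c).det := by
    conv_lhs => rw [hM3c]
    rw [Matrix.det_updateCol_smul]
  have hfin : C (x i0) * (C (x i0) * M.det) =
      (X - C l) * ((X - C l) * (M3.updateCol i0 c).det) := by
    rw [← hd1, ← hd2, hd3, hd4]
  have hinv : C (x i0)⁻¹ * C (x i0) = (1 : F[X]) := by
    rw [← C_mul, inv_mul_cancel₀ hi0, C_1]
  refine ⟨C (x i0)⁻¹ * C (x i0)⁻¹ * (M3.updateCol i0 c).det, ?_⟩
  have h5 : M.det = C (x i0)⁻¹ * C (x i0)⁻¹ * (C (x i0) * (C (x i0) * M.det)) := by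
    linear_combination (-M.det * (C (x i0)⁻¹ * C (x i0) + 1)) * hinv
  rw [h5, hfin]
  ring

end

theorem pf_SMO : T_SMO := by
  intro F _ _ n A B hA hB hs hn x hx h1 h2
  have hB0 : B.det ≠ 0 := lead_ne hs.ne_zero hn
  have hBx : B *ᵥ x ≠ 0 := by
    intro h
    exact hx (Matrix.eq_zero_of_mulVec_eq_zero hB0 h)
  rw [LinearIndependent.pair_iff]
  intro s t hst
  by_cases h0 : s = 0
  · subst h0
    rw [zero_smul, zero_add] at hst
    refine ⟨rfl, ?_⟩
    rcases smul_eq_zero.1 hst with h | h
    · exact h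
    · exact absurd h hBx
  · exfalso
    have hl : A *ᵥ x = (-t / s) • (B *ᵥ x) := by
      have h3 : A *ᵥ x = s⁻¹ • (s • A *ᵥ x) := by
        rw [smul_smul, inv_mul_cancel₀ h0, one_smul]
      have h4 : s • A *ᵥ x = -(t • B *ᵥ x) := eq_neg_of_add_eq_zero_left hst
      rw [h3, h4, smul_neg, smul_smul, ← neg_smul]
      congr 1
      field_simp
    have h5 := hs.squarefree _ (sq_dvd hA hB hx h1 h2 _ hl)
    exact Polynomial.not_isUnit_X_sub_C _ h5

end Pool.Agent.H32.SABP
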