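import Pool.Agent.H32.SAB.Targets

/-!
# The theorem of Amer and Brumer
-/

set_option autoImplicit false

open Polynomial Matrix Pool.Agent.H32.SAB

namespace Pool.Agent.H32.SABP

/-- the bilinear form -/
def bl {R : Type*} [CommRing R] {n : ℕ} (A : Matrix (Fin n) (Fin n) R) (x y : Fin n → R) : R :=
  ∑ i, ∑ j, A i j * x i * y j

theorem qv_bl {R : Type*} [CommRing R] {n : ℕ} (A : Matrix (Fin n) (Fin n) R) (x : Fin n → R) :
    qv A x = bl A x x := rfl

theorem bl_symm {R : Type*} [CommRing R] {n : ℕ} {A : Matrix (Fin n) (Fin n) R} (hA : A.IsSymm)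
    (x y : Fin n → R) : bl A x y = bl A y x := by
  unfold bl
  rw [Finset.sum_comm]
  refine Finset.sum_congr rfl fun j _ => Finset.sum_congr rfl fun i _ => ?_
  rw [hA.apply i j]
  ring

theorem qv_sub {R : Type*} [CommRing R] {n : ℕ} {A : Matrix (Fin n) (Fin n) R} (hA : A.IsSymm)
    (x y : Fin n → R) (g : R) :
    qv A (fun i => x i - g * y i) = qv A x - 2 * g * bl A x y + g ^ 2 * qv A y := by
  have h1 : qv A (fun i => x i - g * y i) =
      qv A x - g * bl A x y - g * bl A y x + g ^ 2 * qv A y := by
    unfold qv bl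
    simp only [Finset.mul_sum]
    simp only [← Finset.sum_sub_distrib, ← Finset.sum_add_distrib]
    refine Finset.sum_congr rfl fun i _ => Finset.sum_congr rfl fun j _ => ?_
    ring
  rw [h1, bl_symm hA y x]
  ring

theorem coeff_top {R : Type*} [CommRing R] {p q : R[X]} {d : ℕ} (hp : p.natDegree ≤ d + 1)
    (hq : q.natDegree ≤ d + 1) :
    (p * q).coeff (2 * d + 1) = p.coeff d * q.coeff (d + 1) + p.coeff (d + 1) * q.coeff d := by
  have h1 : p = (p - monomial (d + 1) (p.coeff (d + 1))) + monomial (d + 1) (p.coeff (d + 1)) := by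
    ring
  have h2 : (p - monomial (d + 1) (p.coeff (d + 1))).natDegree ≤ d := by
    rw [natDegree_le_iff_coeff_eq_zero]
    intro N hN
    rw [coeff_sub, coeff_monomial]
    by_cases h : d + 1 = N
    · subst h
      simp
    · rw [if_neg h, sub_zero]
      exact coeff_eq_zero_of_natDegree_lt (by omega)
  have h3 : ((p - monomial (d + 1) (p.coeff (d + 1))) * q).coeff (2 * d + 1) =
      p.coeff d * q.coeff (d + 1) := by
    have h4 := coeff_mul_add_eq_of_natDegree_le h2 hq
    rw [show 2 * d + 1 = d + (d + 1) by ring, h4, coeff_sub, coeff_monomial,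
      if_neg (by omega), sub_zero]
  have h5 : (monomial (d + 1) (p.coeff (d + 1)) * q).coeff (2 * d + 1) =
      p.coeff (d + 1) * q.coeff d := by
    rw [show 2 * d + 1 = d + (d + 1) by ring, coeff_monomial_mul]
  conv_lhs => rw [h1, add_mul, coeff_add, h3, h5]

theorem coeff_qv {R : Type*} [CommRing R] {n : ℕ} (A : Matrix (Fin n) (Fin n) R)
    (v : Fin n → R[X]) {d : ℕ} (hv : ∀ i, (v i).natDegree ≤ d + 1) :
    (qv (A.map C) v).coeff (2 * d + 2) = qv A (fun i => (v i).coeff (d + 1)) ∧
    (∀ m, 2 * d + 2 < m → (qv (A.map C) v).coeff m = 0) ∧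
    (qv (A.map C) v).coeff (2 * d + 1) =
      bl A (fun i => (v i).coeff d) (fun i => (v i).coeff (d + 1)) +
      bl A (fun i => (v i).coeff (d + 1)) (fun i => (v i).coeff d) := by
  have h0 : ∀ m, (qv (A.map C) v).coeff m = ∑ i, ∑ j, A i j * (v i * v j).coeff m := by
    intro m
    unfold qv
    rw [finsetSum_coeff]
    refine Finset.sum_congr rfl fun i _ => ?_
    rw [finsetSum_coeff]
    refine Finset.sum_congr rfl fun j _ => ?_
    rw [Matrix.map_apply, mul_assoc, coeff_C_mul]
  refine ⟨?_, ?_, ?_⟩
  · rw [h0]
    unfold qv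
    refine Finset.sum_congr rfl fun i _ => Finset.sum_congr rfl fun j _ => ?_
    rw [show 2 * d + 2 = (d + 1) + (d + 1) by ring,
      coeff_mul_add_eq_of_natDegree_le (hv i) (hv j)]
    ring
  · intro m hm
    rw [h0]
    refine Finset.sum_eq_zero fun i _ => Finset.sum_eq_zero fun j _ => ?_
    rw [coeff_eq_zero_of_natDegree_lt, mul_zero]
    refine lt_of_le_of_lt natDegree_mul_le ?_
    have h1 := hv i
    have h2 := hv j
    omega
  · rw [h0]
    unfold bl
    simp only [← Finset.sum_add_distrib]
    refine Finset.sum_congr rfl fun i _ => Finset.sum_congr rfl fun j _ => ?_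
    rw [coeff_top (hv i) (hv j)]
    ring

theorem coeff_bl {R : Type*} [CommRing R] {n : ℕ} (A : Matrix (Fin n) (Fin n) R)
    (v : Fin n → R[X]) (w : Fin n → R) (m : ℕ) :
    (bl (A.map C) v (fun i => C (w i))).coeff m = bl A (fun i => (v i).coeff m) w := by
  unfold bl
  rw [finsetSum_coeff]
  refine Finset.sum_congr rfl fun i _ => ?_
  rw [finsetSum_coeff]
  refine Finset.sum_congr rfl fun j _ => ?_
  rw [Matrix.map_apply, coeff_mul_C, coeff_C_mul]

theorem isSymm_map {R : Type*} [CommRing R] {n : ℕ} {A : Matrix (Fin n) (Fin n) R}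
    (hA : A.IsSymm) : (A.map (C : R → R[X])).IsSymm := by
  unfold Matrix.IsSymm at *
  rw [← Matrix.transpose_map, hA]

theorem qv_C {R : Type*} [CommRing R] {n : ℕ} (A : Matrix (Fin n) (Fin n) R) (w : Fin n → R) :
    qv (A.map C) (fun i => C (w i)) = C (qv A w) := by
  unfold qv
  simp only [Matrix.map_apply, map_sum, map_mul]

theorem isoP_self {k : Type} [Field k] {n : ℕ} {A B : Matrix (Fin n) (Fin n) k} {w : Fin n → k}
    (hw : w ≠ 0) (h1 : qv A w = 0) (h2 : qv B w = 0) : IsoP A B k := by
  refine ⟨w, hw, ?_, ?_⟩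
  · have h : A.map (algebraMap k k) = A := by
      ext i j
      simp
    rw [h, h1]
  · have h : B.map (algebraMap k k) = B := by
      ext i j
      simp
    rw [h, h2]

theorem main {k : Type} [Field k] (h2 : (2 : k) ≠ 0) (n : ℕ) (A B : Matrix (Fin n) (Fin n) k)
    (hA : A.IsSymm) (hB : B.IsSymm) (d : ℕ) : ∀ v : Fin n → k[X], v ≠ 0 →
    (∀ i, (v i).natDegree ≤ d) → qv (A.map C) v + X * qv (B.map C) v = 0 → IsoP A B k := by
  induction d with
  | zero =>
    intro v hv hd hq
    have h1 : ∀ i, v i = C ((v i).coeff 0) := fun i =>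
      eq_C_of_natDegree_le_zero (hd i)
    have h3 : v = fun i => C ((v i).coeff 0) := funext h1
    have h4 : qv (A.map C) v = C (qv A fun i => (v i).coeff 0) := by
      conv_lhs => rw [h3]
      exact qv_C A _
    have h5 : qv (B.map C) v = C (qv B fun i => (v i).coeff 0) := by
      conv_lhs => rw [h3]
      exact qv_C B _
    rw [h4, h5] at hq
    have h6 : qv A (fun i => (v i).coeff 0) = 0 := by
      have h7 := congrArg (fun p => coeff p 0) hq
      simpa using h7
    have h8 : qv B (fun i => (v i).coeff 0) = 0 := by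
      have h7 := congrArg (fun p => coeff p 1) hq
      simpa [coeff_X_mul, coeff_C] using h7
    refine isoP_self (w := fun i => (v i).coeff 0) ?_ h6 h8
    intro h
    apply hv
    rw [h3]
    funext i
    have := congrFun h i
    simp only [Pi.zero_apply] at this
    simp [this]
  | succ d ih =>
    intro v hv hd hq
    set w : Fin n → k := fun i => (v i).coeff (d + 1) with hw
    set u : Fin n → k := fun i => (v i).coeff d with hu
    by_cases hw0 : w = 0
    · refine ih v hv (fun i => ?_) hq
      rw [natDegree_le_iff_coeff_eq_zero]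
      intro N hN
      by_cases h : N = d + 1
      · subst h
        exact congrFun hw0 i
      · exact coeff_eq_zero_of_natDegree_lt (lt_of_le_of_lt (hd i) (by omega))
    obtain ⟨hA1, hA2, hA3⟩ := coeff_qv A v hd
    obtain ⟨hB1, hB2, hB3⟩ := coeff_qv B v hd
    have hBw : qv B w = 0 := by
      have h1 := congrArg (fun p => coeff p (2 * d + 3)) hq
      simp only [coeff_add, coeff_zero] at h1
      rw [hA2 _ (by omega), show 2 * d + 3 = (2 * d + 2) + 1 by ring, coeff_X_mul, hB1,
        zero_add] at h1
      exact h1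
    have hAw : qv A w + 2 * bl B u w = 0 := by
      have h1 := congrArg (fun p => coeff p (2 * d + 2)) hq
      simp only [coeff_add, coeff_zero] at h1
      rw [hA1, show 2 * d + 2 = (2 * d + 1) + 1 by ring, coeff_X_mul, hB3,
        bl_symm hB (fun i => (v i).coeff (d + 1)) (fun i => (v i).coeff d)] at h1
      rw [two_mul]
      exact h1
    by_cases hs : qv A w = 0
    · exact isoP_self hw0 hs hBw
    set s : k := qv A w with hsdef
    set β : k[X] := bl (A.map C) v (fun i => C (w i)) + X * bl (B.map C) v (fun i => C (w i))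
      with hβ
    set g : k[X] := C (2 / s) * β with hg
    have hβc : β.coeff (d + 1) = s / 2 := by
      rw [hβ, coeff_add, coeff_X_mul, coeff_bl, coeff_bl]
      have h1 : bl A (fun i => (v i).coeff (d + 1)) w = s := rfl
      have h3 : bl B (fun i => (v i).coeff d) w = bl B u w := rfl
      rw [h1, h3, eq_div_iff h2]
      linear_combination hAw
    have hβt : ∀ m, d + 1 < m → β.coeff m = 0 := by
      intro m hm
      obtain ⟨m', rfl⟩ : ∃ m', m = m' + 1 := ⟨m - 1, by omega⟩
      rw [hβ, coeff_add, coeff_X_mul, coeff_bl, coeff_bl]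
      have h1 : (fun i => (v i).coeff (m' + 1)) = (0 : Fin n → k) := by
        funext i
        exact coeff_eq_zero_of_natDegree_lt (lt_of_le_of_lt (hd i) hm)
      have h3 : bl A (0 : Fin n → k) w = 0 := by
        unfold bl
        simp
      rw [h1, h3, zero_add]
      by_cases h4 : m' = d + 1
      · subst h4
        exact hBw
      · have h5 : (fun i => (v i).coeff m') = (0 : Fin n → k) := by
          funext i
          exact coeff_eq_zero_of_natDegree_lt (lt_of_le_of_lt (hd i) (by omega))
        rw [h5]
        unfold bl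
        simp
    have hgc : g.coeff (d + 1) = 1 := by
      rw [hg, coeff_C_mul, hβc]
      field_simp
    have hgt : ∀ m, d + 1 < m → g.coeff m = 0 := by
      intro m hm
      rw [hg, coeff_C_mul, hβt m hm, mul_zero]
    have hqw : qv (A.map C) (fun i => C (w i)) + X * qv (B.map C) (fun i => C (w i)) = C s := by
      rw [qv_C, qv_C, hBw]
      simp [hsdef]
    refine ih (fun i => v i - g * C (w i)) ?_ ?_ ?_
    · intro h0
      have hv1 : v = fun i => g * C (w i) := by
        funext i
        have := congrFun h0 i
        simp only [Pi.zero_apply] at this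
        linear_combination this
      have h1 : qv (A.map C) v + X * qv (B.map C) v = g ^ 2 * C s := by
        rw [← hqw, hv1]
        have h3 : ∀ M : Matrix (Fin n) (Fin n) k[X], qv M (fun i => g * C (w i)) =
            g ^ 2 * qv M (fun i => C (w i)) := by
          intro M
          unfold qv
          simp only [Finset.mul_sum]
          refine Finset.sum_congr rfl fun i _ => Finset.sum_congr rfl fun j _ => ?_
          ring
        rw [h3, h3]
        ring
      rw [hq] at h1
      have h3 : g ≠ 0 := by
        intro h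
        rw [h] at hgc
        simp at hgc
      have h4 : (C s : k[X]) ≠ 0 := by
        simpa using hs
      exact mul_ne_zero (pow_ne_zero 2 h3) h4 h1.symm
    · intro i
      rw [natDegree_le_iff_coeff_eq_zero]
      intro N hN
      rw [coeff_sub, coeff_mul_C]
      by_cases h : N = d + 1
      · subst h
        rw [hgc, one_mul]
        exact sub_self _
      · rw [hgt N (by omega), zero_mul, sub_zero]
        exact coeff_eq_zero_of_natDegree_lt (lt_of_le_of_lt (hd i) (by omega))
    · have h1 := qv_sub (isSymm_map hA) v (fun i => C (w i)) g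
      have h3 := qv_sub (isSymm_map hB) v (fun i => C (w i)) g
      rw [h1, h3]
      have h4 : C (2 / s) * C s = (2 : k[X]) := by
        rw [← C_mul, div_mul_cancel₀ _ hs]
        rfl
      have h5 : g * C s = 2 * β := by
        rw [hg]
        linear_combination β * h4
      have h6 : bl (A.map C) v (fun i => C (w i)) = β - X * bl (B.map C) v (fun i => C (w i)) := by
        rw [hβ]
        ring
      rw [h6]
      linear_combination hq + g * h5 + g ^ 2 * hqw

theorem pf_AMB : T_AMB := by
  intro k _ h2 n A B hA hB ⟨v, hv, hq⟩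
  exact main h2 n A B hA hB (Finset.univ.sup fun i => (v i).natDegree) v hv
    (fun i => Finset.le_sup (f := fun i => (v i).natDegree) (Finset.mem_univ i)) hq

end Pool.Agent.H32.SABP
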