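import Pool.Agent.H32.SAB.TargetsT

/-!
# The normal form of a pencil with irreducible discriminant
-/

set_option autoImplicit false

open Polynomial Matrix Pool.Agent.H32.SAB

namespace Pool.Agent.H32.SABP

theorem gram_apply {k : Type} [Field k] {n : ℕ} (A U : Matrix (Fin n) (Fin n) k) (i j : Fin n) :
    (Uᵀ * A * U) i j = (fun a => U a i) ⬝ᵥ A *ᵥ (fun b => U b j) := by
  rw [Matrix.mul_assoc, Matrix.mul_apply]
  simp only [Matrix.transpose_apply, dotProduct]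
  refine Finset.sum_congr rfl fun a _ => ?_
  rw [Matrix.mul_apply]
  rfl

theorem det_lead {k : Type} [Field k] {A1 A2 : Matrix (Fin 7) (Fin 7) k}
    (hn : (A1.map C - (X : k[X]) • A2.map C).det.natDegree = 7) : A2.det ≠ 0 := by
  intro h0
  have h1 : A1.map C - (X : k[X]) • A2.map C = (X : k[X]) • (-A2).map C + A1.map C := by
    ext i j
    simp
    ring
  have h2 := coeff_det_X_add_C_card (-A2) A1
  rw [← h1, Matrix.det_neg, h0, mul_zero, Fintype.card_fin] at h2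
  have h3 : (A1.map C - (X : k[X]) • A2.map C).det.leadingCoeff = 0 := by
    rw [leadingCoeff, hn, h2]
  rw [leadingCoeff_eq_zero] at h3
  rw [h3, natDegree_zero] at hn
  exact absurd hn (by norm_num)

theorem charpoly_eq {k : Type} [Field k] {n : ℕ} {A1 A2 : Matrix (Fin n) (Fin n) k}
    (h2 : A2.det ≠ 0) :
    C A2.det * (A2⁻¹ * A1).charpoly =
      (-1) ^ n * (A1.map C - (X : k[X]) • A2.map C).det := by
  have hu : IsUnit A2.det := isUnit_iff_ne_zero.2 h2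
  have h1 : C A2.det = ((C : k →+* k[X]).mapMatrix A2).det := RingHom.map_det C A2
  have h3 : (C : k →+* k[X]).mapMatrix A2 * (A2⁻¹ * A1).charmatrix =
      -(A1.map (C : k →+* k[X]) - (X : k[X]) • A2.map (C : k →+* k[X])) := by
    rw [Matrix.charmatrix, mul_sub]
    have h4 : (C : k →+* k[X]).mapMatrix A2 * (Matrix.scalar (Fin n)) (X : k[X]) =
        (X : k[X]) • A2.map (C : k →+* k[X]) := by
      rw [Matrix.scalar_apply, ← Matrix.smul_one_eq_diagonal, Matrix.mul_smul, Matrix.mul_one,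
        RingHom.mapMatrix_apply]
    have h5 : (C : k →+* k[X]).mapMatrix A2 * (C : k →+* k[X]).mapMatrix (A2⁻¹ * A1) =
        A1.map (C : k →+* k[X]) := by
      rw [← map_mul, Matrix.mul_nonsing_inv_cancel_left _ _ hu, RingHom.mapMatrix_apply]
    rw [h4, h5]
    abel
  rw [Matrix.charpoly, h1, ← Matrix.det_mul, h3, Matrix.det_neg, Fintype.card_fin]

theorem self_adj {k : Type} [Field k] {n : ℕ} {A1 A2 : Matrix (Fin n) (Fin n) k}
    (hA1 : A1.IsSymm) (hA2 : A2.IsSymm) (h2 : A2.det ≠ 0) (i : ℕ) :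
    ((A2⁻¹ * A1) ^ i)ᵀ * A2 = A2 * (A2⁻¹ * A1) ^ i := by
  have hu : IsUnit A2.det := isUnit_iff_ne_zero.2 h2
  have hMA : A2 * (A2⁻¹ * A1) = A1 := by
    rw [Matrix.mul_nonsing_inv_cancel_left _ _ hu]
  have h1 : (A2⁻¹ * A1)ᵀ * A2 = A2 * (A2⁻¹ * A1) := by
    rw [hMA, Matrix.transpose_mul, Matrix.transpose_nonsing_inv, hA1.eq, hA2.eq,
      Matrix.mul_assoc, Matrix.nonsing_inv_mul _ hu, Matrix.mul_one]
  induction i with
  | zero => simp
  | succ i ih =>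
    rw [pow_succ, Matrix.transpose_mul, Matrix.mul_assoc, ih, ← Matrix.mul_assoc, h1,
      Matrix.mul_assoc, ← pow_succ', ← pow_succ]

/-- the functional of the pencil -/
noncomputable def lf {k : Type} [Field k] {n : ℕ} (A2 M : Matrix (Fin n) (Fin n) k)
    (v : Fin n → k) : k[X] →ₗ[k] k where
  toFun g := v ⬝ᵥ (A2 * aeval M g) *ᵥ v
  map_add' := by
    intro f g
    rw [map_add, Matrix.mul_add, Matrix.add_mulVec, dotProduct_add]
  map_smul' := by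
    intro c g
    rw [map_smul, Matrix.mul_smul, Matrix.smul_mulVec, dotProduct_smul]
    rfl

theorem lf_apply {k : Type} [Field k] {n : ℕ} (A2 M : Matrix (Fin n) (Fin n) k)
    (v : Fin n → k) (g : k[X]) : lf A2 M v g = v ⬝ᵥ (A2 * aeval M g) *ᵥ v := rfl

theorem lf_char {k : Type} [Field k] {n : ℕ} (A2 M : Matrix (Fin n) (Fin n) k)
    (v : Fin n → k) (g : k[X]) : lf A2 M v (M.charpoly * g) = 0 := by
  rw [lf_apply, map_mul, Matrix.aeval_self_charpoly, zero_mul, Matrix.mul_zero,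
    Matrix.zero_mulVec, dotProduct_zero]

theorem lf_pow {k : Type} [Field k] {n : ℕ} {A2 M : Matrix (Fin n) (Fin n) k}
    (hs : ∀ i : ℕ, (M ^ i)ᵀ * A2 = A2 * M ^ i) (v : Fin n → k) (i j : ℕ) :
    ((M ^ i) *ᵥ v) ⬝ᵥ A2 *ᵥ ((M ^ j) *ᵥ v) = lf A2 M v (X ^ (i + j)) := by
  rw [lf_apply, map_pow, aeval_X, pow_add, ← Matrix.mul_assoc, ← hs i, Matrix.mulVec_mulVec,
    Matrix.mul_assoc, ← Matrix.mulVec_mulVec v ((M ^ i)ᵀ), dotProduct_mulVec v ((M ^ i)ᵀ),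
    Matrix.vecMul_transpose]

theorem gram_A2 {k : Type} [Field k] {n : ℕ} {A2 M : Matrix (Fin n) (Fin n) k}
    (hs : ∀ i : ℕ, (M ^ i)ᵀ * A2 = A2 * M ^ i) (v : Fin n → k)
    (i j : Fin n) :
    ((Matrix.of fun i j : Fin n => ((M ^ (j : ℕ)) *ᵥ v) i)ᵀ * A2 *
      (Matrix.of fun i j : Fin n => ((M ^ (j : ℕ)) *ᵥ v) i)) i j =
      lf A2 M v (X ^ ((i : ℕ) + (j : ℕ))) := by
  rw [gram_apply, ← lf_pow hs]
  rfl

theorem gram_A1 {k : Type} [Field k] {n : ℕ} {A2 M : Matrix (Fin n) (Fin n) k}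
    (hs : ∀ i : ℕ, (M ^ i)ᵀ * A2 = A2 * M ^ i) (v : Fin n → k)
    (i j : Fin n) :
    ((Matrix.of fun i j : Fin n => ((M ^ (j : ℕ)) *ᵥ v) i)ᵀ * (A2 * M) *
      (Matrix.of fun i j : Fin n => ((M ^ (j : ℕ)) *ᵥ v) i)) i j =
      lf A2 M v (X ^ ((i : ℕ) + (j : ℕ) + 1)) := by
  rw [gram_apply, add_assoc, ← lf_pow hs]
  have h1 : (A2 * M) *ᵥ (fun b => (Matrix.of fun i j : Fin n => ((M ^ (j : ℕ)) *ᵥ v) i) b j) =
      A2 *ᵥ ((M ^ ((j : ℕ) + 1)) *ᵥ v) := by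
    have h3 : (fun b => (Matrix.of fun i j : Fin n => ((M ^ (j : ℕ)) *ᵥ v) i) b j) =
      (M ^ (j : ℕ)) *ᵥ v := rfl
    rw [h3, Matrix.mulVec_mulVec, Matrix.mul_assoc, ← pow_succ', ← Matrix.mulVec_mulVec]
  rw [h1]
  rfl

theorem irr_char {k : Type} [Field k] {n : ℕ} {A1 A2 : Matrix (Fin n) (Fin n) k}
    (h2 : A2.det ≠ 0) (hirr : Irreducible (A1.map C - (X : k[X]) • A2.map C).det) :
    Irreducible (A2⁻¹ * A1).charpoly := by
  have hPe := charpoly_eq (A1 := A1) h2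
  have h3 : Associated (A1.map C - (X : k[X]) • A2.map C).det (A2⁻¹ * A1).charpoly := by
    have hc : IsUnit (C ((A2.det)⁻¹) * (-1) ^ n : k[X]) := by
      refine IsUnit.mul ?_ ((isUnit_one.neg).pow n)
      rw [isUnit_C, isUnit_iff_ne_zero]
      exact inv_ne_zero h2
    refine ⟨hc.unit, ?_⟩
    rw [IsUnit.unit_spec]
    have h5 : (C ((A2.det)⁻¹) : k[X]) * C A2.det = 1 := by
      rw [← C_mul, inv_mul_cancel₀ h2, C_1]
    linear_combination -(C ((A2.det)⁻¹) : k[X]) * hPe + (A2⁻¹ * A1).charpoly * h5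
  exact h3.irreducible hirr

theorem norm_scale {k : Type} [Field k] {P : k[X]} (hPm : P.Monic) (c : k) (D : k[X]) :
    Algebra.norm k (AdjoinRoot.mk P (C c * D)) =
      c ^ P.natDegree * Algebra.norm k (AdjoinRoot.mk P D) := by
  have h1 : AdjoinRoot.mk P (C c * D) = algebraMap k (AdjoinRoot P) c * AdjoinRoot.mk P D := by
    rw [map_mul]
    rfl
  rw [h1, map_mul, Algebra.norm_algebraMap, (AdjoinRoot.powerBasis' hPm).finrank,
    AdjoinRoot.powerBasis'_dim]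

theorem norm_ne {k : Type} [Field k] {P D : k[X]} (h : IsCoprime P D) :
    Algebra.norm k (AdjoinRoot.mk P D) ≠ 0 := by
  obtain ⟨u, w, huw⟩ := h
  have h1 : AdjoinRoot.mk P w * AdjoinRoot.mk P D = 1 := by
    have h5 := congrArg (AdjoinRoot.mk P) huw
    rw [map_add, map_mul, map_mul, AdjoinRoot.mk_self, mul_zero, zero_add, map_one] at h5
    exact h5
  have h3 := congrArg (Algebra.norm k) h1
  rw [map_mul, map_one] at h3
  intro h
  rw [h, mul_zero] at h3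
  exact zero_ne_one h3

theorem coprime_scale {k : Type} [Field k] {P D : k[X]} (h : IsCoprime P D) {c : k}
    (hc : c ≠ 0) : IsCoprime P (C c * D) := by
  refine IsCoprime.mul_right ?_ h
  refine ⟨0, C c⁻¹, ?_⟩
  rw [zero_mul, zero_add, ← C_mul, inv_mul_cancel₀ hc, C_1]

theorem last {k : Type} [Field k] (P D0 : k[X]) (B : Matrix (Fin 7) (Fin 7) k) (s : ℕ) (c : k)
    (hL2 : ∀ (c : k) (g : k[X]), lam P (C c * g) = c * lam P g)
    (hB : ∀ i j : Fin 7, B i j = lam P (D0 * X ^ ((i : ℕ) + (j : ℕ) + s))) :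
    c • B = gA P (C c * D0) s := by
  ext i j
  rw [Matrix.smul_apply, hB, smul_eq_mul, ← hL2]
  unfold gA
  rw [Matrix.of_apply, mul_assoc]

theorem fin7 {k : Type} [Field k] {P D0 : k[X]} {A1 A2 U : Matrix (Fin 7) (Fin 7) k}
    (h2 : A2.det ≠ 0) (hUd : U.det ≠ 0) (hPi : Irreducible P) (hPm : P.Monic)
    (hPn : P.natDegree = 7)
    (hL2 : ∀ (c : k) (g : k[X]), lam P (C c * g) = c * lam P g)
    (hL3 : ∀ g : k[X], lam P (P * g) = 0)
    (hg0 : ∀ i j : Fin 7, (Uᵀ * A2 * U) i j = lam P (D0 * X ^ ((i : ℕ) + (j : ℕ))))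
    (hg1 : ∀ i j : Fin 7, (Uᵀ * A1 * U) i j = lam P (D0 * X ^ ((i : ℕ) + (j : ℕ) + 1))) :
    ∃ (P D : k[X]) (U : Matrix (Fin 7) (Fin 7) k) (c : k), P.Monic ∧ Irreducible P ∧
    P.natDegree = 7 ∧ IsCoprime P D ∧ IsSquare (Algebra.norm k (AdjoinRoot.mk P D)) ∧
    U.det ≠ 0 ∧ c ≠ 0 ∧ c • (Uᵀ * A1 * U) = gA P D 1 ∧ c • (Uᵀ * A2 * U) = gA P D 0 := by
  have hcop : IsCoprime P D0 := by
    rw [hPi.coprime_iff_not_dvd]
    rintro ⟨E, hE⟩
    have h1 : Uᵀ * A2 * U = 0 := by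
      ext i j
      rw [hg0, hE, mul_assoc, hL3]
      rfl
    have h3 : (Uᵀ * A2 * U).det ≠ 0 := by
      rw [Matrix.det_mul, Matrix.det_mul, Matrix.det_transpose]
      exact mul_ne_zero (mul_ne_zero hUd h2) hUd
    apply h3
    rw [h1]
    exact Matrix.det_zero
  have hc0 := norm_ne hcop
  refine ⟨P, C (Algebra.norm k (AdjoinRoot.mk P D0)) * D0, U,
    Algebra.norm k (AdjoinRoot.mk P D0), hPm, hPi, hPn, coprime_scale hcop hc0, ?_, hUd, hc0,
    ?_, ?_⟩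
  · rw [norm_scale hPm, hPn]
    exact ⟨Algebra.norm k (AdjoinRoot.mk P D0) ^ 4, by ring⟩
  · refine last P D0 _ 1 _ hL2 fun i j => ?_
    rw [hg1]
  · refine last P D0 _ 0 _ hL2 fun i j => ?_
    rw [hg0, add_zero]

theorem gen7 {k : Type} [Field k] (hLAM : T_LAM) (hCYC : T_CYC)
    {A1 A2 M : Matrix (Fin 7) (Fin 7) k} (P : k[X]) (h2 : A2.det ≠ 0) (hPM : M.charpoly = P)
    (hPi : Irreducible P) (hMA : A2 * M = A1) (hs : ∀ i : ℕ, (M ^ i)ᵀ * A2 = A2 * M ^ i)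
    (hPm : P.Monic) (hPn : P.natDegree = 7) (v : Fin 7 → k) (hv0 : v ≠ 0) :
    ∃ (P D : k[X]) (U : Matrix (Fin 7) (Fin 7) k) (c : k), P.Monic ∧ Irreducible P ∧
    P.natDegree = 7 ∧ IsCoprime P D ∧ IsSquare (Algebra.norm k (AdjoinRoot.mk P D)) ∧
    U.det ≠ 0 ∧ c ≠ 0 ∧ c • (Uᵀ * A1 * U) = gA P D 1 ∧ c • (Uᵀ * A2 * U) = gA P D 0 := by
  have hUd := hCYC k 7 M (by rw [hPM]; exact hPi) v hv0
  obtain ⟨hL1, hL2, hL3, hL4, hL5, hL6⟩ := hLAM k P hPm hPn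
  have hl : ∀ g, lf A2 M v (P * g) = 0 := by
    intro g
    have h := lf_char A2 M v g
    rw [hPM] at h
    exact h
  obtain ⟨D0, hD0⟩ := hL6 (lf A2 M v) hl
  refine fin7 (D0 := D0) h2 hUd hPi hPm hPn hL2 hL3 (fun i j => ?_) (fun i j => ?_)
  · rw [gram_A2 hs v, hD0]
  · rw [← hMA, gram_A1 hs v, hD0]

theorem pf_NFM (hLAM : T_LAM) (hCYC : T_CYC) : T_NFM := by
  intro k _ A1 A2 hA1 hA2 hirr hn
  have h2 := det_lead hn
  have hPi : Irreducible (A2⁻¹ * A1).charpoly := irr_char h2 hirr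
  have hPm : (A2⁻¹ * A1).charpoly.Monic := Matrix.charpoly_monic _
  have hPn : (A2⁻¹ * A1).charpoly.natDegree = 7 := by
    rw [Matrix.charpoly_natDegree_eq_dim, Fintype.card_fin]
  have hMA : A2 * (A2⁻¹ * A1) = A1 := by
    rw [Matrix.mul_nonsing_inv_cancel_left _ _ (isUnit_iff_ne_zero.2 h2)]
  exact gen7 hLAM hCYC _ h2 rfl hPi hMA (self_adj hA1 hA2 h2) hPm hPn (fun _ => 1)
    (fun h => one_ne_zero (congrFun h 0))

end Pool.Agent.H32.SABP
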